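import Pool.Agent.Lib_helper52.LQ.Defs
import Pool.Agent.Lib_helper37.LQ.R0

set_option autoImplicit false

namespace Pool.Agent.LQ

open MeasureTheory ENNReal Set Filter Topology Pool.Agent.EPS Pool.Agent.YG

variable {d : ℕ}

theorem r2_int {X : Type} [MeasurableSpace X] (μ : Measure X) [IsFiniteMeasure μ] (f : X → ℝ)
    (hf : Measurable f) (C : ℝ) (hC : ∀ x, |f x| ≤ C) : Integrable f μ :=
  Integrable.of_bound hf.aestronglyMeasurable C (Eventually.of_forall fun x => hC x)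

theorem r2_conv (α γ : Measure (Eu d)) [IsProbabilityMeasure α] [IsProbabilityMeasure γ]
    (f : Eu d → ℝ) (hf : Measurable f) :
    ∫ u, f u ∂(α.conv γ) = ∫ p, f (p.1 + p.2) ∂(α.prod γ) := by
  unfold Measure.conv
  rw [integral_map (by fun_prop) hf.aestronglyMeasurable]

theorem r2_bm_of_rg {α γ : Measure (Eu d)} {k κ : Eu d → ℝ} (hk : Bm k) (h : Rg α γ k κ) :
    Bm κ := by
  obtain ⟨C, hC⟩ := hk.2
  exact ⟨h.meas, C, h.bd C hC⟩

theorem r2_sq_le {X : Type} [MeasurableSpace X] (μ : Measure X) [IsProbabilityMeasure μ]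
    (f : X → ℝ) (hf : Measurable f) (C : ℝ) (hC : ∀ x, |f x| ≤ C) :
    (∫ x, f x ∂μ) ^ 2 ≤ ∫ x, f x ^ 2 ∂μ := by
  have hi : Integrable f μ := r2_int μ f hf C hC
  have h2 : Integrable (fun x => f x ^ 2) μ := by
    refine r2_int μ _ (hf.pow_const 2) (C ^ 2) fun x => ?_
    rw [abs_pow]
    exact pow_le_pow_left₀ (abs_nonneg _) (hC x) 2
  set c := ∫ x, f x ∂μ with hc
  have h0 : 0 ≤ ∫ x, (f x - c) ^ 2 ∂μ := integral_nonneg fun x => sq_nonneg _
  have h1 : ∫ x, (f x - c) ^ 2 ∂μ = ∫ x, f x ^ 2 ∂μ - 2 * c * c + c ^ 2 := by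
    have e : ∀ x, (f x - c) ^ 2 = f x ^ 2 - 2 * c * f x + c ^ 2 := fun x => by ring
    have i3 : Integrable (fun x => f x ^ 2 - 2 * c * f x) μ := h2.sub (hi.const_mul _)
    simp_rw [e]
    rw [integral_add i3 (integrable_const _),
      integral_sub h2 (hi.const_mul _), integral_const_mul, ← hc]
    simp
  rw [h1] at h0
  nlinarith

/-- elementary facts (Fubini, `2 a b ≤ a² + b²`) -/
theorem ad_bm (α : Measure (Eu d)) [IsProbabilityMeasure α] (κ : Eu d → ℝ) (hκ : Measurable κ)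
    (M : ℝ) (hM : ∀ u, |κ u| ≤ M) : Measurable (ad α κ) ∧ ∀ z, |ad α κ z| ≤ M := by
  constructor
  · have h : StronglyMeasurable (fun p : Eu d × Eu d => κ (p.1 + p.2)) :=
      (hκ.comp (measurable_fst.add measurable_snd)).stronglyMeasurable
    exact (h.integral_prod_left' (μ := α)).measurable
  · intro z
    have h := norm_integral_le_of_norm_le_const (μ := α) (f := fun x => κ (x + z)) (C := M)
      (Eventually.of_forall fun x => hM (x + z))
    simpa [ad] using h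

theorem ad_int (α γ : Measure (Eu d)) [IsProbabilityMeasure α] [IsProbabilityMeasure γ]
    (κ : Eu d → ℝ) (hκ : Bm κ) : ∫ z, ad α κ z ∂γ = ∫ u, κ u ∂(α.conv γ) ∧
      ∫ z, ad α κ z ^ 2 ∂γ ≤ ∫ u, κ u ^ 2 ∂(α.conv γ) := by
  have key : ∀ f : Eu d → ℝ, Bm f → ∫ z, ad α f z ∂γ = ∫ u, f u ∂(α.conv γ) := by
    intro f hf
    obtain ⟨C, hC⟩ := hf.2
    have hm : Measurable (fun p : Eu d × Eu d => f (p.1 + p.2)) :=
      hf.1.comp (measurable_fst.add measurable_snd)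
    rw [r2_conv α γ f hf.1, integral_prod_symm _ (r2_int _ _ hm C fun p => hC _)]
    rfl
  refine ⟨key κ hκ, ?_⟩
  obtain ⟨C, hC⟩ := hκ.2
  have hsq : Bm (fun u => κ u ^ 2) := by
    refine ⟨hκ.1.pow_const 2, C ^ 2, fun u => ?_⟩
    rw [abs_pow]
    exact pow_le_pow_left₀ (abs_nonneg _) (hC u) 2
  rw [← key _ hsq]
  obtain ⟨m1, b1⟩ := ad_bm α κ hκ.1 C hC
  obtain ⟨C2, hC2⟩ := hsq.2
  obtain ⟨m2, b2⟩ := ad_bm α (fun u => κ u ^ 2) hsq.1 C2 hC2
  refine integral_mono ?_ (r2_int γ _ m2 C2 b2) fun z => ?_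
  · refine r2_int γ _ (m1.pow_const 2) (C ^ 2) fun z => ?_
    rw [abs_pow]
    exact pow_le_pow_left₀ (abs_nonneg _) (b1 z) 2
  · exact r2_sq_le α (fun x => κ (x + z)) (hκ.1.comp (measurable_id.add_const z)) C
      fun x => hC _

theorem rg_adj (α γ : Measure (Eu d)) [IsProbabilityMeasure α] [IsProbabilityMeasure γ]
    (k κ h : Eu d → ℝ) (hk : Bm k) (hκ : Rg α γ k κ) (hh : Bm h) :
    ∫ u, κ u * h u ∂(α.conv γ) = ∫ z, k z * ad α h z ∂γ := by
  obtain ⟨C, hC⟩ := hk.2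
  obtain ⟨D, hD⟩ := hh.2
  have hm : Measurable (fun p : Eu d × Eu d => k p.2 * h (p.1 + p.2)) :=
    (hk.1.comp measurable_snd).mul (hh.1.comp (measurable_fst.add measurable_snd))
  rw [← hκ.eq h hh, integral_prod_symm _ (r2_int _ _ hm (C * D) fun p => ?_)]
  · refine integral_congr_ae (Eventually.of_forall fun z => ?_)
    simp only [ad]
    rw [integral_const_mul]
  · rw [abs_mul]
    exact mul_le_mul (hC _) (hD _) (abs_nonneg _) (le_trans (abs_nonneg _) (hC p.2))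

theorem rg_sq (α γ : Measure (Eu d)) [IsProbabilityMeasure α] [IsProbabilityMeasure γ]
    (k κ : Eu d → ℝ) (hk : Bm k) (hκ : Rg α γ k κ) :
    ∫ u, κ u ^ 2 ∂(α.conv γ) ≤ ∫ z, k z ^ 2 ∂γ := by
  have hb : Bm κ := r2_bm_of_rg hk hκ
  obtain ⟨C, hC⟩ := hk.2
  have hD := hκ.bd C hC
  have h1 := rg_adj α γ k κ κ hk hκ hb
  have h2 := (ad_int α γ κ hb).2
  obtain ⟨m1, b1⟩ := ad_bm α κ hκ.meas C hD
  have e : ∫ u, κ u ^ 2 ∂(α.conv γ) = ∫ z, k z * ad α κ z ∂γ := by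
    rw [← h1]
    exact integral_congr_ae (Eventually.of_forall fun u => by simp only; ring)
  have sqb : ∀ x : ℝ, |x| ≤ C → |x ^ 2| ≤ C ^ 2 := fun x hx => by
    rw [abs_pow]
    exact pow_le_pow_left₀ (abs_nonneg _) hx 2
  have i1 : Integrable (fun z => k z ^ 2) γ :=
    r2_int γ _ (hk.1.pow_const 2) (C ^ 2) fun z => sqb _ (hC z)
  have i2 : Integrable (fun z => ad α κ z ^ 2) γ :=
    r2_int γ _ (m1.pow_const 2) (C ^ 2) fun z => sqb _ (b1 z)
  have i3 : Integrable (fun z => k z * ad α κ z) γ := by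
    refine r2_int γ _ (hk.1.mul m1) (C * C) fun z => ?_
    rw [abs_mul]
    exact mul_le_mul (hC _) (b1 _) (abs_nonneg _) (le_trans (abs_nonneg _) (hC z))
  have h3 : ∫ z, 2 * (k z * ad α κ z) ∂γ ≤ ∫ z, (k z ^ 2 + ad α κ z ^ 2) ∂γ := by
    refine integral_mono (i3.const_mul 2) (i1.add i2) fun z => ?_
    have := sq_nonneg (k z - ad α κ z)
    simp only
    nlinarith
  rw [integral_const_mul, integral_add i1 i2] at h3
  linarith

theorem r2_uni (μ : Measure (Eu d)) [IsFiniteMeasure μ] (f g : Eu d → ℝ) (hf : Bm f) (hg : Bm g)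
    (h : ∀ w : Eu d → ℝ, Bm w → ∫ u, f u * w u ∂μ = ∫ u, g u * w u ∂μ) :
    ∀ᵐ u ∂μ, f u = g u := by
  obtain ⟨C, hC⟩ := hf.2
  obtain ⟨D, hD⟩ := hg.2
  have hm : Measurable (fun u => f u - g u) := hf.1.sub hg.1
  have hb : ∀ u, |f u - g u| ≤ C + D := fun u =>
    (abs_sub _ _).trans (add_le_add (hC u) (hD u))
  have hw : Bm (fun u => f u - g u) := ⟨hm, C + D, hb⟩
  have h1 := h _ hw
  have ib : ∀ (q : Eu d → ℝ) (E : ℝ), Measurable q → (∀ u, |q u| ≤ E) →
      Integrable (fun u => q u * (f u - g u)) μ := by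
    intro q E hq hE
    refine r2_int μ _ (hq.mul hm) (E * (C + D)) fun u => ?_
    rw [abs_mul]
    exact mul_le_mul (hE _) (hb _) (abs_nonneg _) (le_trans (abs_nonneg _) (hE u))
  have h2 : ∫ u, (f u - g u) ^ 2 ∂μ = 0 := by
    have e : ∀ u, (f u - g u) ^ 2 = f u * (f u - g u) - g u * (f u - g u) := fun u => by ring
    simp_rw [e]
    rw [integral_sub (ib f C hf.1 hC) (ib g D hg.1 hD), h1, sub_self]
  have i2 : Integrable (fun u => (f u - g u) ^ 2) μ := by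
    refine r2_int μ _ (hm.pow_const 2) ((C + D) ^ 2) fun u => ?_
    rw [abs_pow]
    exact pow_le_pow_left₀ (abs_nonneg _) (hb u) 2
  have h3 := (integral_eq_zero_iff_of_nonneg (fun u => sq_nonneg (f u - g u)) i2).1 h2
  filter_upwards [h3] with u hu
  have : (f u - g u) ^ 2 = 0 := hu
  have := pow_eq_zero_iff (two_ne_zero) |>.1 this
  linarith

theorem rg_lin (α γ : Measure (Eu d)) [IsProbabilityMeasure α] [IsProbabilityMeasure γ]
    (k κ k' κ' : Eu d → ℝ) (hk : Bm k) (hk' : Bm k') (h : Rg α γ k κ) (h' : Rg α γ k' κ')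
    (a b : ℝ) : ∃ lam : Eu d → ℝ, Rg α γ (fun z => a * k z + b * k' z) lam ∧
      ∀ᵐ u ∂(α.conv γ), lam u = a * κ u + b * κ' u := by
  have comb : ∀ p q : Eu d → ℝ, Bm p → Bm q → Bm (fun z => a * p z + b * q z) := by
    intro p q hp hq
    obtain ⟨C, hC⟩ := hp.2
    obtain ⟨D, hD⟩ := hq.2
    refine ⟨(hp.1.const_mul a).add (hq.1.const_mul b), |a| * C + |b| * D, fun z => ?_⟩
    refine (abs_add_le _ _).trans (add_le_add ?_ ?_)
    · rw [abs_mul]
      exact mul_le_mul_of_nonneg_left (hC z) (abs_nonneg a)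
    · rw [abs_mul]
      exact mul_le_mul_of_nonneg_left (hD z) (abs_nonneg b)
  have hbk := comb k k' hk hk'
  obtain ⟨lam, hlam⟩ := rg_ex α γ _ hbk
  refine ⟨lam, hlam, ?_⟩
  have hκ := r2_bm_of_rg hk h
  have hκ' := r2_bm_of_rg hk' h'
  refine r2_uni _ _ _ (r2_bm_of_rg hbk hlam) (comb κ κ' hκ hκ') fun w hw => ?_
  obtain ⟨W, hW⟩ := hw.2
  have ic : ∀ q : Eu d → ℝ, Bm q → Integrable (fun u => q u * w u) (α.conv γ) := by
    intro q hq
    obtain ⟨E, hE⟩ := hq.2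
    refine r2_int _ _ (hq.1.mul hw.1) (E * W) fun u => ?_
    rw [abs_mul]
    exact mul_le_mul (hE _) (hW _) (abs_nonneg _) (le_trans (abs_nonneg _) (hE u))
  have ip : ∀ q : Eu d → ℝ, Bm q → Integrable (fun p : Eu d × Eu d => q p.2 * w (p.1 + p.2))
      (α.prod γ) := by
    intro q hq
    obtain ⟨E, hE⟩ := hq.2
    refine r2_int _ _ ((hq.1.comp measurable_snd).mul
      (hw.1.comp (measurable_fst.add measurable_snd))) (E * W) fun p => ?_
    rw [abs_mul]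
    exact mul_le_mul (hE _) (hW _) (abs_nonneg _) (le_trans (abs_nonneg _) (hE p.2))
  rw [← hlam.eq w hw]
  have e1 : ∀ p : Eu d × Eu d, (a * k p.2 + b * k' p.2) * w (p.1 + p.2) =
      a * (k p.2 * w (p.1 + p.2)) + b * (k' p.2 * w (p.1 + p.2)) := fun p => by ring
  have e2 : ∀ u : Eu d, (a * κ u + b * κ' u) * w u = a * (κ u * w u) + b * (κ' u * w u) :=
    fun u => by ring
  simp_rw [e1, e2]
  rw [integral_add ((ip k hk).const_mul a) ((ip k' hk').const_mul b), integral_const_mul,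
    integral_const_mul, integral_add ((ic κ hκ).const_mul a) ((ic κ' hκ').const_mul b),
    integral_const_mul, integral_const_mul, h.eq w hw, h'.eq w hw]

/-- uniqueness -/
theorem rg_uni (α γ : Measure (Eu d)) [IsProbabilityMeasure α] [IsProbabilityMeasure γ]
    (k κ κ' : Eu d → ℝ) (hk : Bm k) (h : Rg α γ k κ) (h' : Rg α γ k κ') :
    ∀ᵐ u ∂(α.conv γ), κ u = κ' u :=
  r2_uni _ _ _ (r2_bm_of_rg hk h) (r2_bm_of_rg hk h') fun w hw => by
    rw [← h.eq w hw, ← h'.eq w hw]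

end Pool.Agent.LQ
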